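import Pool.Agent.H322R2.Idx

/-!
# Coefficient vectors of the polynomials which vanish at given integer points
-/

set_option autoImplicit false

namespace Pool.Agent.K7.H55.TP

open Pool.Agent.H322R2 (Ix mem_Ix card_Ix)
open Module

variable {d : ℕ}

/-- the exponent of a monomial -/
noncomputable def ex (p : ↥(Ix d)) : Fin 2 →₀ ℕ := Finsupp.single 0 p.1.1 + Finsupp.single 1 p.1.2

theorem ex_zero (p : ↥(Ix d)) : ex p 0 = p.1.1 := by simp [ex]

theorem ex_one (p : ↥(Ix d)) : ex p 1 = p.1.2 := by simp [ex]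

theorem ex_inj : Function.Injective (ex (d := d)) := by
  intro p q h
  apply Subtype.ext
  apply Prod.ext
  · rw [← ex_zero p, ← ex_zero q, h]
  · rw [← ex_one p, ← ex_one q, h]

theorem ex_surj {m : Fin 2 →₀ ℕ} (h : m 0 + m 1 ≤ d) : ∃ p : ↥(Ix d), ex p = m := by
  refine ⟨⟨(m 0, m 1), mem_Ix.2 h⟩, ?_⟩
  ext i
  fin_cases i <;> simp [ex]

theorem deg_le {F : MvPolynomial (Fin 2) ℤ} (hF : F.totalDegree ≤ d) {m : Fin 2 →₀ ℕ}
    (hm : m ∈ F.support) : m 0 + m 1 ≤ d := by
  have h3 := MvPolynomial.le_totalDegree hm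
  have h4 : (m.sum fun _ e => e) = m.degree := rfl
  rw [h4, Finsupp.degree_eq_sum, Fin.sum_univ_two] at h3
  omega

/-- the value at an integer point of the polynomial with the coefficients `c` -/
def evl {K : Type*} [CommRing K] (c : ↥(Ix d) → K) (q : ℤ × ℤ) : K :=
  ∑ p : ↥(Ix d), c p * ((q.1 : K) ^ p.1.1 * (q.2 : K) ^ p.1.2)

theorem eval_eq (F : MvPolynomial (Fin 2) ℤ) (hF : F.totalDegree ≤ d) (q : ℤ × ℤ) :
    MvPolynomial.eval ![q.1, q.2] F = evl (fun p : ↥(Ix d) => F.coeff (ex p)) q := by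
  rw [MvPolynomial.eval_eq']
  unfold evl
  have h : F.support ⊆ Finset.univ.map ⟨ex (d := d), ex_inj⟩ := by
    intro m hm
    rw [Finset.mem_map]
    obtain ⟨p, hp⟩ := ex_surj (deg_le hF hm)
    exact ⟨p, Finset.mem_univ _, hp⟩
  rw [Finset.sum_subset h]
  · rw [Finset.sum_map]
    refine Finset.sum_congr rfl fun p _ => ?_
    simp [Fin.prod_univ_two, ex_zero, ex_one]
  · intro m _ hm
    rw [MvPolynomial.notMem_support_iff.1 hm, zero_mul]

theorem evl_cast {K : Type*} [CommRing K] (c : ↥(Ix d) → ℤ) (q : ℤ × ℤ) :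
    evl (fun p => ((c p : ℤ) : K)) q = ((evl c q : ℤ) : K) := by
  unfold evl
  push_cast
  rfl

theorem evl_add {K : Type*} [CommRing K] (c c' : ↥(Ix d) → K) (q : ℤ × ℤ) :
    evl (c + c') q = evl c q + evl c' q := by
  unfold evl
  rw [← Finset.sum_add_distrib]
  refine Finset.sum_congr rfl fun p _ => ?_
  rw [Pi.add_apply]
  ring

theorem evl_smul {K : Type*} [CommRing K] (a : K) (c : ↥(Ix d) → K) (q : ℤ × ℤ) :
    evl (a • c) q = a * evl c q := by
  unfold evl
  rw [Finset.mul_sum]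
  refine Finset.sum_congr rfl fun p _ => ?_
  rw [Pi.smul_apply, smul_eq_mul]
  ring

/-- interpolation -/
theorem lagrange (S : Finset (ℤ × ℤ)) (hS : S.card ≤ d + 1) (q : ℤ × ℤ) (hq : q ∈ S) :
    ∃ c : ↥(Ix d) → ℤ, evl c q ≠ 0 ∧ ∀ q' ∈ S, q' ≠ q → evl c q' = 0 := by
  classical
  let l : ℤ × ℤ → MvPolynomial (Fin 2) ℤ := fun q' =>
    if q.1 ≠ q'.1 then MvPolynomial.X 0 - MvPolynomial.C q'.1
    else MvPolynomial.X 1 - MvPolynomial.C q'.2
  have hl : ∀ q', (l q').totalDegree ≤ 1 := by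
    intro q'
    simp only [l]
    split_ifs
    · refine (MvPolynomial.totalDegree_sub_C_le _ _).trans ?_
      rw [MvPolynomial.totalDegree_X]
    · refine (MvPolynomial.totalDegree_sub_C_le _ _).trans ?_
      rw [MvPolynomial.totalDegree_X]
  have hdeg : (∏ q' ∈ S.erase q, l q').totalDegree ≤ d := by
    refine (MvPolynomial.totalDegree_finsetProd _ _).trans ?_
    refine (Finset.sum_le_card_nsmul _ _ 1 fun q' _ => hl q').trans ?_
    rw [Finset.card_erase_of_mem hq]
    simp only [smul_eq_mul, mul_one]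
    omega
  refine ⟨fun p => (∏ q' ∈ S.erase q, l q').coeff (ex p), ?_, ?_⟩
  · rw [← eval_eq _ hdeg, map_prod, Finset.prod_ne_zero_iff]
    intro q' hq'
    simp only [l]
    split_ifs with h
    · simp only [map_sub, MvPolynomial.eval_X, MvPolynomial.eval_C]
      rw [sub_ne_zero]
      simpa using h
    · push Not at h
      simp only [map_sub, MvPolynomial.eval_X, MvPolynomial.eval_C]
      rw [sub_ne_zero]
      intro h2
      have h3 : q = q' := Prod.ext h (by simpa using h2)
      exact (Finset.mem_erase.1 hq').1 h3.symm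
  · intro q' hq' hne
    rw [← eval_eq _ hdeg, map_prod]
    apply Finset.prod_eq_zero (Finset.mem_erase.2 ⟨hne, hq'⟩)
    simp only [l]
    split_ifs with h
    · simp
    · simp

/-- the evaluation at the points of `S` -/
def L (K : Type*) [Field K] (d : ℕ) (S : Finset (ℤ × ℤ)) : (↥(Ix d) → K) →ₗ[K] (↥S → K) where
  toFun c := fun q => evl c q.1
  map_add' c c' := by
    funext q
    exact evl_add c c' q.1
  map_smul' a c := by
    funext q
    exact evl_smul a c q.1

theorem L_surj (K : Type*) [Field K] [CharZero K] (S : Finset (ℤ × ℤ)) (hS : S.card ≤ d + 1) :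
    Function.Surjective (L K d S) := by
  classical
  have h := fun q : ↥S => lagrange (d := d) S hS q.1 q.2
  choose c h1 h2 using h
  intro y
  refine ⟨∑ q : ↥S, (y q / ((evl (c q) q.1 : ℤ) : K)) • (fun p => ((c q p : ℤ) : K)), ?_⟩
  rw [map_sum]
  funext q'
  rw [Finset.sum_apply, Finset.sum_eq_single q']
  · rw [map_smul, Pi.smul_apply, smul_eq_mul]
    change y q' / _ * evl (fun p => ((c q' p : ℤ) : K)) q'.1 = _
    rw [evl_cast, div_mul_cancel₀]
    exact_mod_cast h1 q'
  · intro q _ hne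
    rw [map_smul, Pi.smul_apply, smul_eq_mul]
    change _ * evl (fun p => ((c q p : ℤ) : K)) q'.1 = _
    rw [evl_cast, h2 q q'.1 q'.2 (fun h => hne (Subtype.ext h.symm)), Int.cast_zero, mul_zero]
  · intro h
    exact absurd (Finset.mem_univ _) h

theorem finrank_ker (K : Type*) [Field K] [CharZero K] (S : Finset (ℤ × ℤ))
    (hS : S.card ≤ d + 1) :
    finrank K (LinearMap.ker (L K d S)) + S.card = (Ix d).card := by
  have h := LinearMap.finrank_range_add_finrank_ker (L K d S)
  rw [LinearMap.range_eq_top.2 (L_surj K S hS), finrank_top, Module.finrank_fintype_fun_eq_card,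
    Module.finrank_fintype_fun_eq_card, Fintype.card_coe, Fintype.card_coe] at h
  omega

/-- integer points of a box in a subspace -/
theorem box_card {ι : Type} [Fintype ι] (V : Submodule ℚ (ι → ℚ)) (H : ℕ)
    (A : Set (ι → ℤ)) (hA : ∀ c ∈ A, (fun i => ((c i : ℤ) : ℚ)) ∈ V ∧ ∀ i, |c i| ≤ (H : ℤ)) :
    A.Finite ∧ A.ncard ≤ (2 * H + 1) ^ finrank ℚ V := by
  classical
  let g : ι → Dual ℚ V := fun i => (LinearMap.proj i).comp V.subtype
  obtain ⟨b, hb1, hb2, hb3⟩ := exists_linearIndependent ℚ (Set.range g)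
  have hbf : b.Finite := (Set.finite_range g).subset hb1
  have : Fintype b := hbf.fintype
  have hcard : Fintype.card b ≤ finrank ℚ V := by
    have := hb3.fintype_card_le_finrank
    rwa [Subspace.dual_finrank_eq] at this
  have hch : ∀ β : b, ∃ i, g i = β.1 := fun β => hb1 β.2
  choose j hj using hch
  let Φ : (ι → ℤ) → (b → ℤ) := fun c β => c (j β)
  have hinj : Set.InjOn Φ A := by
    intro c hc c' hc' h
    have h1 := (hA c hc).1
    have h2 := (hA c' hc').1
    let w : V := ⟨fun i => ((c i : ℤ) : ℚ), h1⟩ - ⟨fun i => ((c' i : ℤ) : ℚ), h2⟩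
    have hw : ∀ β ∈ Submodule.span ℚ b, β w = 0 := by
      intro β hβ
      induction hβ using Submodule.span_induction with
      | mem x hx =>
        have h3 := hj ⟨x, hx⟩
        simp only at h3
        rw [← h3]
        have h4 := congrFun h ⟨x, hx⟩
        simp only [Φ] at h4
        simp only [g, w, LinearMap.comp_apply, Submodule.subtype_apply, Submodule.coe_sub,
          LinearMap.proj_apply, Pi.sub_apply]
        rw [h4, sub_self]
      | zero => simp
      | add x y _ _ hx hy => rw [LinearMap.add_apply, hx, hy, add_zero]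
      | smul a x _ hx => rw [LinearMap.smul_apply, hx, smul_zero]
    funext i
    have h5 := hw (g i) (by
      rw [hb2]
      exact Submodule.subset_span ⟨i, rfl⟩)
    simp only [g, w, LinearMap.comp_apply, Submodule.subtype_apply, Submodule.coe_sub,
          LinearMap.proj_apply, Pi.sub_apply] at h5
    rw [sub_eq_zero] at h5
    exact_mod_cast h5
  let B : Finset (b → ℤ) := Fintype.piFinset fun _ => Finset.Icc (-(H : ℤ)) H
  have himg : Φ '' A ⊆ (B : Set (b → ℤ)) := by
    rintro _ ⟨c, hc, rfl⟩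
    rw [Finset.mem_coe, Fintype.mem_piFinset]
    intro β
    rw [Finset.mem_Icc]
    exact abs_le.1 ((hA c hc).2 _)
  have hBc : B.card = (2 * H + 1) ^ Fintype.card b := by
    change (Fintype.piFinset fun _ : b => Finset.Icc (-(H : ℤ)) H).card = _
    rw [Fintype.card_piFinset, Finset.prod_const, Int.card_Icc, Finset.card_univ]
    congr 1
    omega
  have hfin : A.Finite := Set.Finite.of_finite_image ((Finset.finite_toSet B).subset himg) hinj
  refine ⟨hfin, ?_⟩
  rw [← hinj.ncard_image]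
  calc (Φ '' A).ncard ≤ (B : Set (b → ℤ)).ncard := Set.ncard_le_ncard himg (Finset.finite_toSet B)
    _ = (2 * H + 1) ^ Fintype.card b := by rw [Set.ncard_coe_finset, hBc]
    _ ≤ _ := Nat.pow_le_pow_right (by omega) hcard

/-- the number of polynomials which vanish on `S` -/
theorem fam_card (S : Finset (ℤ × ℤ)) (hS : S.card ≤ d + 1) (H : ℕ) :
    {F : MvPolynomial (Fin 2) ℤ | F.totalDegree ≤ d ∧ (∀ m, |F.coeff m| ≤ (H : ℤ)) ∧
      ∀ p ∈ S, MvPolynomial.eval ![p.1, p.2] F = 0}.Finite ∧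
    {F : MvPolynomial (Fin 2) ℤ | F.totalDegree ≤ d ∧ (∀ m, |F.coeff m| ≤ (H : ℤ)) ∧
      ∀ p ∈ S, MvPolynomial.eval ![p.1, p.2] F = 0}.ncard ≤ (2 * H + 1) ^ ((Ix d).card - S.card) := by
  set X : Set (MvPolynomial (Fin 2) ℤ) := {F | F.totalDegree ≤ d ∧ (∀ m, |F.coeff m| ≤ (H : ℤ)) ∧
      ∀ p ∈ S, MvPolynomial.eval ![p.1, p.2] F = 0} with hX
  let ψ : MvPolynomial (Fin 2) ℤ → (↥(Ix d) → ℤ) := fun F p => F.coeff (ex p)
  have hinj : Set.InjOn ψ X := by
    intro F hF G hG h
    ext m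
    by_cases hm : m 0 + m 1 ≤ d
    · obtain ⟨p, rfl⟩ := ex_surj hm
      exact congrFun h p
    · rw [MvPolynomial.notMem_support_iff.1 (fun h => hm (deg_le hF.1 h)),
        MvPolynomial.notMem_support_iff.1 (fun h => hm (deg_le hG.1 h))]
  have h1 := box_card (LinearMap.ker (L ℚ d S)) H (ψ '' X) (by
    rintro _ ⟨F, ⟨hF1, hF2, hF3⟩, rfl⟩
    refine ⟨?_, fun p => hF2 _⟩
    rw [LinearMap.mem_ker]
    funext q
    change evl (fun p => ((ψ F p : ℤ) : ℚ)) q.1 = 0
    rw [evl_cast, ← eval_eq F hF1, hF3 q.1 q.2, Int.cast_zero])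
  have h2 := finrank_ker (d := d) ℚ S hS
  have h3 : finrank ℚ (LinearMap.ker (L ℚ d S)) = (Ix d).card - S.card := by omega
  rw [h3, hinj.ncard_image] at h1
  exact ⟨Set.Finite.of_finite_image h1.1 hinj, h1.2⟩

end Pool.Agent.K7.H55.TP
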