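import Pool.Agent.K7.H55.TP.Lin

/-!
# Rounding inside the lattice of the integer polynomials which vanish on `S`
-/

set_option autoImplicit false

namespace Pool.Agent.K7.H55.TP

open Pool.Agent.H322R2 (Ix mem_Ix card_Ix)

variable {d : ℕ}

/-- each multiple of a real coefficient vector which vanishes on `S` is close to an integer one -/
theorem rounding (S : Finset (ℤ × ℤ)) (hS : S.card ≤ d + 1) :
    ∃ κ : ℝ, ∀ f : ↥(Ix d) → ℝ, (∀ q ∈ S, evl f q = 0) → ∀ t : ℝ,
      ∃ c : ↥(Ix d) → ℤ, (∀ q ∈ S, evl c q = 0) ∧ ∀ p, |((c p : ℤ) : ℝ) - t * f p| ≤ κ := by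
  classical
  have h := fun q : ↥S => lagrange (d := d) S hS q.1 q.2
  choose c h1 h2 using h
  set a : ↥S → ℤ := fun q => evl (c q) q.1 with ha
  set D : ℤ := ∏ q : ↥S, a q with hD
  set e : ↥S → ℤ := fun q => ∏ q' ∈ Finset.univ.erase q, a q' with he
  have hDe : ∀ q, D = a q * e q := fun q => by
    rw [hD, he]
    exact (Finset.mul_prod_erase Finset.univ a (Finset.mem_univ q)).symm
  have hD0 : D ≠ 0 := Finset.prod_ne_zero_iff.2 fun q _ => h1 q
  have hD0' : (D : ℝ) ≠ 0 := by exact_mod_cast hD0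
  set M : ↥S → ℝ := fun q => ∑ p : ↥(Ix d), |((q.1.1 : ℝ) ^ p.1.1 * (q.1.2 : ℝ) ^ p.1.2)| with hM
  refine ⟨|(D : ℝ)| + ∑ q : ↥S, |(e q : ℝ)| * M q * ∑ p, |((c q p : ℤ) : ℝ)|, fun f hf t => ?_⟩
  set G : ↥(Ix d) → ℤ := fun p => round (t * f p / D) with hG
  set g : ↥(Ix d) → ℝ := fun p => (G p : ℝ) - t * f p / D with hg
  have hg1 : ∀ p, |g p| ≤ 1 := fun p => by
    have := abs_sub_round (t * f p / D)
    rw [abs_sub_comm] at this
    rw [hg, hG]
    simp only
    linarith
  have hgq : ∀ q : ↥S, ((evl G q.1 : ℤ) : ℝ) = evl g q.1 := by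
    intro q
    have e1 : (fun p => ((G p : ℤ) : ℝ)) = g + (t / D) • f := by
      funext p
      rw [Pi.add_apply, Pi.smul_apply, hg, smul_eq_mul]
      ring
    rw [← evl_cast, e1, evl_add, evl_smul, hf q.1 q.2, mul_zero, add_zero]
  have hgM : ∀ q : ↥S, |evl g q.1| ≤ M q := by
    intro q
    unfold evl
    refine (Finset.abs_sum_le_sum_abs _ _).trans ?_
    rw [hM]
    refine Finset.sum_le_sum fun p _ => ?_
    rw [abs_mul]
    exact mul_le_of_le_one_left (abs_nonneg _) (hg1 p)
  refine ⟨fun p => D * G p - ∑ q : ↥S, e q * evl G q.1 * c q p, ?_, ?_⟩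
  · intro q hq
    have e2 : evl (fun p => D * G p - ∑ q : ↥S, e q * evl G q.1 * c q p) q =
        D * evl G q - ∑ q' : ↥S, e q' * evl G q'.1 * evl (c q') q := by
      unfold evl
      simp only [sub_mul, Finset.sum_sub_distrib, Finset.mul_sum, Finset.sum_mul]
      congr 1
      · exact Finset.sum_congr rfl fun p _ => by ring
      · rw [Finset.sum_comm]
        refine Finset.sum_congr rfl fun q' _ => ?_
        refine Finset.sum_congr rfl fun p _ => ?_
        refine Finset.sum_congr rfl fun p' _ => ?_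
        ring
    rw [e2, Finset.sum_eq_single (⟨q, hq⟩ : ↥S)]
    · rw [hDe ⟨q, hq⟩]
      simp only [ha]
      ring
    · intro q' _ hne
      rw [h2 q' q hq (fun h => hne (Subtype.ext h.symm)), mul_zero]
    · intro hcon
      exact absurd (Finset.mem_univ _) hcon
  · intro p
    have e3 : (((D * G p - ∑ q : ↥S, e q * evl G q.1 * c q p : ℤ)) : ℝ) - t * f p =
        D * g p - ∑ q : ↥S, (e q : ℝ) * evl g q.1 * (c q p : ℝ) := by
      push_cast
      simp only [hgq]
      rw [hg]
      simp only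
      field_simp
      ring
    rw [e3]
    refine (abs_sub _ _).trans ?_
    refine add_le_add ?_ ?_
    · rw [abs_mul]
      exact mul_le_of_le_one_right (abs_nonneg _) (hg1 p)
    · refine (Finset.abs_sum_le_sum_abs _ _).trans ?_
      refine Finset.sum_le_sum fun q _ => ?_
      rw [abs_mul, abs_mul]
      refine mul_le_mul (mul_le_mul_of_nonneg_left (hgM q) (abs_nonneg _)) ?_ (abs_nonneg _) ?_
      · exact Finset.single_le_sum (f := fun p => |((c q p : ℤ) : ℝ)|) (fun p _ => abs_nonneg _)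
          (Finset.mem_univ p)
      · refine mul_nonneg (abs_nonneg _) ?_
        rw [hM]
        exact Finset.sum_nonneg fun p _ => abs_nonneg _

end Pool.Agent.K7.H55.TP
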