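import Pool.Agent.R559.NP.Near
import Pool.Agent.K7.H55.TP.Lin

/-!
# Integer polynomials near the multiples of a real polynomial
-/

set_option autoImplicit false

namespace Pool.Agent.K7.H55.TP

open Pool.Agent.H322R2 (Ix mem_Ix card_Ix)

variable {d : ℕ}

/-- the largest absolute value of the coefficients -/
def ht (F : MvPolynomial (Fin 2) ℤ) : ℕ := F.support.sup fun m => (F.coeff m).natAbs

theorem coeff_le (F : MvPolynomial (Fin 2) ℤ) (m : Fin 2 →₀ ℕ) : (F.coeff m).natAbs ≤ ht F := by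
  by_cases h : m ∈ F.support
  · exact Finset.le_sup (f := fun m => (F.coeff m).natAbs) h
  · rw [MvPolynomial.notMem_support_iff] at h
    rw [h]
    exact Nat.zero_le _

theorem abs_coeff_le (F : MvPolynomial (Fin 2) ℤ) (m : Fin 2 →₀ ℕ) :
    |((F.coeff m : ℤ) : ℝ)| ≤ ht F := by
  have h := coeff_le F m
  have h2 : ((F.coeff m).natAbs : ℝ) = |((F.coeff m : ℤ) : ℝ)| := by
    rw [← Int.cast_abs, Int.abs_eq_natAbs]
    rfl
  rw [← h2]
  exact_mod_cast h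

theorem ht_le {F : MvPolynomial (Fin 2) ℤ} (hF : F.totalDegree ≤ d) {B : ℝ} (hB : 0 ≤ B)
    (h : ∀ p : ↥(Ix d), |((F.coeff (ex p) : ℤ) : ℝ)| ≤ B) : (ht F : ℝ) ≤ B := by
  have h1 : ht F ≤ ⌊B⌋₊ := by
    unfold ht
    refine Finset.sup_le fun m hm => ?_
    obtain ⟨p, hp⟩ := ex_surj (deg_le hF hm)
    have h2 := h p
    rw [hp] at h2
    refine Nat.le_floor ?_
    have h3 : ((F.coeff m).natAbs : ℝ) = |((F.coeff m : ℤ) : ℝ)| := by
      rw [← Int.cast_abs, Int.abs_eq_natAbs]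
      rfl
    rw [h3]
    exact h2
  calc (ht F : ℝ) ≤ ⌊B⌋₊ := by exact_mod_cast h1
    _ ≤ B := Nat.floor_le hB

instance : Countable (MvPolynomial (Fin 2) ℤ) := by
  rw [← Cardinal.mk_le_aleph0_iff]
  exact (MvPolynomial.cardinalMk_le_max).trans (by simp)

/-- number of terms up to `B` of a sequence with given exponent of convergence -/
theorem count_seq {v : ℕ → ℝ} (hv : ∀ n, 1 ≤ v n) {t : ℝ} (ht : 0 ≤ t)
    (hs : Summable fun n => (v n) ^ (-t)) (B : ℝ) (hB : 1 ≤ B) :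
    {n | v n ≤ B}.Finite ∧ ({n | v n ≤ B}.ncard : ℝ) ≤ (∑' n, (v n) ^ (-t)) * B ^ t := by
  have hB0 : 0 < B := by linarith
  have hfin : {n | v n ≤ B}.Finite := by
    have h1 := hs.tendsto_cofinite_zero
    have h2 : ∀ᶠ n in Filter.cofinite, (v n) ^ (-t) < B ^ (-t) := h1.eventually (gt_mem_nhds (by positivity))
    rw [Filter.eventually_cofinite] at h2
    refine h2.subset ?_
    intro n hn
    rw [Set.mem_ofPred_eq] at hn ⊢
    rw [not_lt]
    exact Real.rpow_le_rpow_of_nonpos (by linarith [hv n]) hn (by linarith)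
  refine ⟨hfin, ?_⟩
  rw [Set.ncard_eq_toFinset_card _ hfin]
  have h1 : ∑ n ∈ hfin.toFinset, (v n) ^ (-t) ≤ ∑' n, (v n) ^ (-t) :=
    hs.sum_le_tsum _ fun n _ => by
      have := hv n
      positivity
  have h2 : (hfin.toFinset.card : ℝ) * B ^ (-t) ≤ ∑ n ∈ hfin.toFinset, (v n) ^ (-t) := by
    rw [← nsmul_eq_mul]
    refine Finset.card_nsmul_le_sum _ _ _ fun n hn => ?_
    rw [Set.Finite.mem_toFinset, Set.mem_ofPred_eq] at hn
    exact Real.rpow_le_rpow_of_nonpos (by linarith [hv n]) hn (by linarith)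
  have h3 : (hfin.toFinset.card : ℝ) * B ^ (-t) ≤ ∑' n, (v n) ^ (-t) := h2.trans h1
  have h4 : B ^ (-t) * B ^ t = 1 := by
    rw [← Real.rpow_add hB0, neg_add_cancel, Real.rpow_zero]
  calc (hfin.toFinset.card : ℝ) = (hfin.toFinset.card : ℝ) * B ^ (-t) * B ^ t := by
        rw [mul_assoc, h4, mul_one]
    _ ≤ (∑' n, (v n) ^ (-t)) * B ^ t := mul_le_mul_of_nonneg_right h3 (by positivity)

/-- the hypothesis: `Bad` holds for at most `C B ^ (s + ε)` polynomials of degree at most `d` and height at most `B` -/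
def Few (d : ℕ) (Bad : MvPolynomial (Fin 2) ℤ → Prop) (s : ℝ) : Prop :=
  ∀ ε : ℝ, 0 < ε → ∃ C : ℝ, ∀ B : ℝ, 1 ≤ B →
    {F : MvPolynomial (Fin 2) ℤ | (F.totalDegree ≤ d ∧ Bad F) ∧ (ht F : ℝ) ≤ B}.Finite ∧
    (({F : MvPolynomial (Fin 2) ℤ | (F.totalDegree ≤ d ∧ Bad F) ∧ (ht F : ℝ) ≤ B}.ncard : ℕ) : ℝ) ≤
      C * B ^ (s + ε)

theorem windows {Bad : MvPolynomial (Fin 2) ℤ → Prop} {s : ℝ} (hs : 0 ≤ s) (hcount : Few d Bad s)
    {v : ℕ → ℝ} {ρ θ : ℝ} (hv : ∀ n, 1 ≤ v n) (hρ : 0 ≤ ρ)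
    (hsum : ∀ t : ℝ, ρ < t → Summable fun n => (v n) ^ (-t)) (hθ : θ < 1) :
    ∃ E : Set (↥(Ix d) → ℝ), dimH E ≤ ENNReal.ofReal ((s + ρ) / (1 - θ)) ∧
      ∀ f : ↥(Ix d) → ℝ, f ∉ E → ∀ κ : ℝ,
        {x : ℕ × MvPolynomial (Fin 2) ℤ | (x.2.totalDegree ≤ d ∧ Bad x.2) ∧
          ∀ p : ↥(Ix d), |((x.2.coeff (ex p) : ℤ) : ℝ) - v x.1 * f p| ≤ κ * (v x.1) ^ θ}.Finite := by
  classical
  let Q : ℕ → ℕ × MvPolynomial (Fin 2) ℤ → Prop := fun R x =>
    (x.2.totalDegree ≤ d ∧ Bad x.2) ∧ (ht x.2 : ℝ) ≤ ((R : ℝ) + 1) * v x.1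
  have hcnt : ∀ R : ℕ, ∀ ε : ℝ, 0 < ε → ∃ C : ℝ, ∀ B : ℝ, 1 ≤ B →
      {x : ℕ × MvPolynomial (Fin 2) ℤ | Q R x ∧ v x.1 ≤ B}.Finite ∧
      (({x : ℕ × MvPolynomial (Fin 2) ℤ | Q R x ∧ v x.1 ≤ B}.ncard : ℕ) : ℝ) ≤
        C * B ^ ((s + ρ) + ε) := by
    intro R ε hε
    obtain ⟨C, hC⟩ := hcount (ε / 2) (by positivity)
    set D : ℝ := ∑' n, (v n) ^ (-(ρ + ε / 2)) with hD
    have hD0 : 0 ≤ D := tsum_nonneg fun n => by
      have := hv n
      positivity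
    refine ⟨D * (|C| * ((R : ℝ) + 1) ^ (s + ε / 2)), fun B hB => ?_⟩
    have hB0 : 0 < B := by linarith
    have hR : (1 : ℝ) ≤ (R : ℝ) + 1 := by
      have : (0 : ℝ) ≤ R := Nat.cast_nonneg R
      linarith
    obtain ⟨h1, h2⟩ := count_seq hv (by positivity : 0 ≤ ρ + ε / 2) (hsum _ (by linarith)) B hB
    obtain ⟨h3, h4⟩ := hC (((R : ℝ) + 1) * B) (by nlinarith)
    have hsub : {x : ℕ × MvPolynomial (Fin 2) ℤ | Q R x ∧ v x.1 ≤ B} ⊆
        ((h1.toFinset ×ˢ h3.toFinset : Finset (ℕ × MvPolynomial (Fin 2) ℤ)) : Set _) := by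
      rintro ⟨n, F⟩ ⟨⟨g1, g2⟩, g3⟩
      rw [Finset.mem_coe, Finset.mem_product, Set.Finite.mem_toFinset, Set.Finite.mem_toFinset]
      refine ⟨g3, g1, g2.trans ?_⟩
      exact mul_le_mul_of_nonneg_left g3 (by linarith)
    refine ⟨(Finset.finite_toSet _).subset hsub, ?_⟩
    have h5 : (({x : ℕ × MvPolynomial (Fin 2) ℤ | Q R x ∧ v x.1 ≤ B}.ncard : ℕ) : ℝ) ≤
        (h1.toFinset.card : ℝ) * (h3.toFinset.card : ℝ) := by
      have h6 := Set.ncard_le_ncard hsub (Finset.finite_toSet _)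
      rw [Set.ncard_coe_finset, Finset.card_product] at h6
      exact_mod_cast h6
    rw [Set.ncard_eq_toFinset_card _ h1] at h2
    rw [Set.ncard_eq_toFinset_card _ h3] at h4
    have h7 : (h3.toFinset.card : ℝ) ≤ |C| * (((R : ℝ) + 1) * B) ^ (s + ε / 2) :=
      h4.trans (mul_le_mul_of_nonneg_right (le_abs_self C) (by positivity))
    calc _ ≤ (h1.toFinset.card : ℝ) * (h3.toFinset.card : ℝ) := h5
      _ ≤ (D * B ^ (ρ + ε / 2)) * (|C| * (((R : ℝ) + 1) * B) ^ (s + ε / 2)) :=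
          mul_le_mul h2 h7 (Nat.cast_nonneg _) (by positivity)
      _ = D * (|C| * ((R : ℝ) + 1) ^ (s + ε / 2)) * (B ^ (ρ + ε / 2) * B ^ (s + ε / 2)) := by
          rw [Real.mul_rpow (by linarith) hB0.le]
          ring
      _ = D * (|C| * ((R : ℝ) + 1) ^ (s + ε / 2)) * B ^ ((s + ρ) + ε) := by
          rw [← Real.rpow_add hB0]
          congr 2
          ring
  have key := fun R : ℕ => Pool.Agent.R559.NP.near_dim (T := ℕ × MvPolynomial (Fin 2) ℤ)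
    (X := ↥(Ix d) → ℝ) (H := fun x => v x.1) (fun x => hv x.1) (Bad := Q R) (s := s + ρ)
    (τ := 1 - θ) (by positivity) (by linarith) (hcnt R)
    (fun x => fun p => ((x.2.coeff (ex p) : ℤ) : ℝ) / v x.1)
  choose E hE hE' using key
  refine ⟨⋃ R, E R, ?_, ?_⟩
  · rw [dimH_iUnion]
    exact iSup_le hE
  · intro f hf κ
    rw [Set.mem_iUnion] at hf
    push Not at hf
    obtain ⟨R, hR⟩ := exists_nat_ge (‖f‖ + |κ|)
    refine (hE' R f (hf R) |κ|).subset ?_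
    rintro ⟨n, F⟩ ⟨h1, h2⟩
    simp only at h1 h2
    have hvn := hv n
    have hv0 : 0 < v n := by linarith
    have hpow : (v n) ^ θ ≤ v n := by
      calc (v n) ^ θ ≤ (v n) ^ (1 : ℝ) := Real.rpow_le_rpow_of_exponent_le hvn hθ.le
        _ = v n := Real.rpow_one _
    refine ⟨?_, h1, ?_⟩
    · rw [dist_pi_le_iff (by positivity)]
      intro p
      rw [Real.dist_eq]
      have h3 : ((F.coeff (ex p) : ℤ) : ℝ) / v n - f p =
          (((F.coeff (ex p) : ℤ) : ℝ) - v n * f p) / v n := by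
        field_simp
      rw [h3, abs_div, abs_of_pos hv0, div_le_iff₀ hv0]
      calc |((F.coeff (ex p) : ℤ) : ℝ) - v n * f p| ≤ κ * (v n) ^ θ := h2 p
        _ ≤ |κ| * (v n) ^ θ := mul_le_mul_of_nonneg_right (le_abs_self κ) (by positivity)
        _ = |κ| * (v n) ^ (-(1 - θ)) * v n := by
            rw [mul_assoc, ← Real.rpow_add_one hv0.ne']
            congr 2
            ring
    · refine ht_le h1.1 (by positivity) fun p => ?_
      have h3 := h2 p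
      have h4 : |f p| ≤ ‖f‖ := norm_le_pi_norm f p
      have h5 : |((F.coeff (ex p) : ℤ) : ℝ)| ≤
          |((F.coeff (ex p) : ℤ) : ℝ) - v n * f p| + |v n * f p| := by
        have := abs_add_le (((F.coeff (ex p) : ℤ) : ℝ) - v n * f p) (v n * f p)
        rwa [sub_add_cancel] at this
      rw [abs_mul, abs_of_pos hv0] at h5
      have h6 : κ * (v n) ^ θ ≤ |κ| * v n :=
        mul_le_mul (le_abs_self κ) hpow (by positivity) (abs_nonneg κ)
      calc |((F.coeff (ex p) : ℤ) : ℝ)| ≤ |κ| * v n + v n * ‖f‖ := by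
            have := mul_le_mul_of_nonneg_left h4 hv0.le
            linarith
        _ = (‖f‖ + |κ|) * v n := by ring
        _ ≤ ((R : ℝ) + 1) * v n := mul_le_mul_of_nonneg_right (by linarith) hv0.le

theorem directions {Bad : MvPolynomial (Fin 2) ℤ → Prop} {s : ℝ} (hs : 0 ≤ s) (hcount : Few d Bad s)
    {τ : ℝ} (hτ : 0 < τ) :
    ∃ E : Set (↥(Ix d) → ℝ), dimH E ≤ ENNReal.ofReal (s / τ) ∧
      ∀ f : ↥(Ix d) → ℝ, f ∉ E → ∀ κ : ℝ,
        {F : MvPolynomial (Fin 2) ℤ | (F ≠ 0 ∧ F.totalDegree ≤ d ∧ Bad F) ∧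
          ∀ p : ↥(Ix d), |((F.coeff (ex p) : ℤ) : ℝ) / ht F - f p| ≤ κ * (ht F : ℝ) ^ (-τ)}.Finite := by
  classical
  obtain ⟨E, h1, h2⟩ := Pool.Agent.R559.NP.near_dim (T := MvPolynomial (Fin 2) ℤ)
    (X := ↥(Ix d) → ℝ) (H := fun F => ((max 1 (ht F) : ℕ) : ℝ)) (fun F => by exact_mod_cast le_max_left _ _)
    (Bad := fun F => F.totalDegree ≤ d ∧ Bad F) (s := s)
    (τ := τ) hs hτ (fun ε hε => by
      obtain ⟨C, hC⟩ := hcount ε hε
      refine ⟨C, fun B hB => ?_⟩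
      have e : {F : MvPolynomial (Fin 2) ℤ | (F.totalDegree ≤ d ∧ Bad F) ∧
          ((max 1 (ht F) : ℕ) : ℝ) ≤ B} =
          {F : MvPolynomial (Fin 2) ℤ | (F.totalDegree ≤ d ∧ Bad F) ∧ (ht F : ℝ) ≤ B} := by
        ext F
        constructor
        · rintro ⟨g1, g2⟩
          refine ⟨g1, le_trans ?_ g2⟩
          exact_mod_cast le_max_right _ _
        · rintro ⟨g1, g2⟩
          refine ⟨g1, ?_⟩
          rw [Nat.cast_max]
          exact max_le (by exact_mod_cast hB) g2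
      rw [e]
      exact hC B hB)
    (fun F => fun p => ((F.coeff (ex p) : ℤ) : ℝ) / ht F)
  refine ⟨E, h1, fun f hf κ => (h2 f hf |κ|).subset ?_⟩
  rintro F ⟨⟨h3, h4⟩, h5⟩
  refine ⟨?_, h4⟩
  have hht : 1 ≤ ht F := by
    by_contra hcon
    apply h3
    ext m
    have h6 := coeff_le F m
    rw [MvPolynomial.coeff_zero]
    exact Int.natAbs_eq_zero.1 (by omega)
  have hmax : max 1 (ht F) = ht F := max_eq_right hht
  rw [dist_pi_le_iff (by positivity)]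
  intro p
  rw [Real.dist_eq, hmax]
  exact (h5 p).trans (mul_le_mul_of_nonneg_right (le_abs_self κ) (by positivity))

end Pool.Agent.K7.H55.TP
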